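import Pool.Agent.Helper114_Nim.Defs

/-!
# Nim squares are not 2-regular
-/

set_option autoImplicit false

namespace Pool.Agent.Helper114.Nim

theorem ppos (p : ℕ) : 0 < 2 ^ p := Nat.pos_of_ne_zero (by positivity)

/-- a multiple of a power of two plus a smaller number is the exclusive or of the two -/
theorem mul_add_eq_xor {p u : ℕ} (x : ℕ) (hu : u < 2 ^ p) : 2 ^ p * x + u = (2 ^ p * x) ^^^ u := by
  have hp := ppos p
  have key : ∀ s t : ℕ, s / 2 ^ p = t / 2 ^ p → s % 2 ^ p = t % 2 ^ p → s = t := by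
    intro s t h1 h2
    rw [← Nat.div_add_mod s (2 ^ p), ← Nat.div_add_mod t (2 ^ p), h1, h2]
  apply key
  · rw [Nat.xor_div_two_pow, Nat.mul_div_cancel_left _ hp, Nat.div_eq_of_lt hu, Nat.xor_zero,
      Nat.mul_add_div hp, Nat.div_eq_of_lt hu, Nat.add_zero]
  · rw [Nat.xor_mod_two_pow, Nat.mul_mod_right, Nat.mod_eq_of_lt hu, Nat.zero_xor,
      Nat.mul_add_mod, Nat.mod_eq_of_lt hu]

theorem F_succ (a : ℕ) : 2 ^ (2 ^ (a + 1)) = 2 ^ (2 ^ a) * 2 ^ (2 ^ a) := by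
  rw [← pow_add, pow_succ, mul_two]

theorem F_half (a : ℕ) : 2 * 2 ^ (2 ^ a - 1) = 2 ^ (2 ^ a) := by
  rw [← pow_succ']
  congr 1
  have := ppos a
  omega

theorem half_lt (a : ℕ) : 2 ^ (2 ^ a - 1) < 2 ^ (2 ^ a) := by
  have := F_half a
  have := ppos (2 ^ a - 1)
  omega

variable {f : ℕ → ℕ → ℕ}

namespace IsNimMul

theorem zero_right (h : IsNimMul f) (m : ℕ) : f m 0 = 0 := by
  have h1 := h.distrib m 0 0
  rw [Nat.xor_self, Nat.xor_self] at h1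
  exact h1

theorem zero_left (h : IsNimMul f) (m : ℕ) : f 0 m = 0 := by rw [h.comm, h.zero_right]

theorem distrib' (h : IsNimMul f) (m n k : ℕ) : f (m ^^^ n) k = f m k ^^^ f n k := by
  rw [h.comm, h.distrib, h.comm k m, h.comm k n]

theorem square' (h : IsNimMul f) (a : ℕ) :
    f (2 ^ (2 ^ a)) (2 ^ (2 ^ a)) = 2 ^ (2 ^ a) ^^^ 2 ^ (2 ^ a - 1) := by
  have h1 := h.square a
  have h2 := F_half a
  have h3 := mul_add_eq_xor 1 (half_lt a)
  rw [Nat.mul_one] at h3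
  rw [h1, ← h3]
  omega

theorem one_one (h : IsNimMul f) : f 1 1 = 1 := by
  have h1 := h.square' 0
  have h2 := h.small 0 1 (by norm_num)
  have h3 : f (f 2 2) 1 = f 2 2 := by
    rw [h.assoc]
    norm_num at h2
    rw [h2]
  norm_num at h1 h2
  rw [h1, show (3 : ℕ) = 2 ^^^ 1 from rfl, h.distrib', h2] at h3
  have h4 : 2 ^^^ (2 ^^^ f 1 1) = 2 ^^^ (2 ^^^ 1) := by rw [h3]
  rw [← Nat.xor_assoc, ← Nat.xor_assoc, Nat.xor_self, Nat.zero_xor, Nat.zero_xor] at h4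
  exact h4

theorem closed (h : IsNimMul f) (a : ℕ) : ∀ m n, m < 2 ^ (2 ^ a) → n < 2 ^ (2 ^ a) →
    f m n < 2 ^ (2 ^ a) := by
  induction a with
  | zero =>
    intro m n hm hn
    have hm' : m < 2 := by simpa using hm
    have hn' : n < 2 := by simpa using hn
    interval_cases m
    · rw [h.zero_left]; norm_num
    · interval_cases n
      · rw [h.zero_right]; norm_num
      · rw [h.one_one]; norm_num
  | succ a ih =>
    intro m n hm hn
    rw [F_succ] at hm hn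
    have hp := ppos (2 ^ a)
    have hm1 : m / 2 ^ (2 ^ a) < 2 ^ (2 ^ a) := Nat.div_lt_of_lt_mul hm
    have hn1 : n / 2 ^ (2 ^ a) < 2 ^ (2 ^ a) := Nat.div_lt_of_lt_mul hn
    have hm0 : m % 2 ^ (2 ^ a) < 2 ^ (2 ^ a) := Nat.mod_lt _ hp
    have hn0 : n % 2 ^ (2 ^ a) < 2 ^ (2 ^ a) := Nat.mod_lt _ hp
    have em : m = f (2 ^ (2 ^ a)) (m / 2 ^ (2 ^ a)) ^^^ m % 2 ^ (2 ^ a) := by
      rw [h.small a _ hm1, ← mul_add_eq_xor _ hm0, Nat.div_add_mod]
    have en : n = f (2 ^ (2 ^ a)) (n / 2 ^ (2 ^ a)) ^^^ n % 2 ^ (2 ^ a) := by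
      rw [h.small a _ hn1, ← mul_add_eq_xor _ hn0, Nat.div_add_mod]
    generalize m / 2 ^ (2 ^ a) = m1 at *
    generalize m % 2 ^ (2 ^ a) = m0 at *
    generalize n / 2 ^ (2 ^ a) = n1 at *
    generalize n % 2 ^ (2 ^ a) = n0 at *
    have hF : ∀ x, x < 2 ^ (2 ^ a) → f (2 ^ (2 ^ a)) x < 2 ^ (2 ^ (a + 1)) := by
      intro x hx
      rw [h.small a _ hx, F_succ]
      exact Nat.mul_lt_mul_of_pos_left hx hp
    have hle : ∀ x, x < 2 ^ (2 ^ a) → x < 2 ^ (2 ^ (a + 1)) := by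
      intro x hx
      rw [F_succ]
      nlinarith
    have e1 : f (f (2 ^ (2 ^ a)) m1) (f (2 ^ (2 ^ a)) n1) =
        f (2 ^ (2 ^ a)) (f m1 n1) ^^^ f (2 ^ (2 ^ a - 1)) (f m1 n1) := by
      rw [h.comm (2 ^ (2 ^ a)) n1, h.assoc, ← h.assoc m1 n1, h.comm (f m1 n1), ← h.assoc,
        h.square', h.distrib']
    have e2 : f (f (2 ^ (2 ^ a)) m1) n0 = f (2 ^ (2 ^ a)) (f m1 n0) := h.assoc _ _ _
    have e3 : f m0 (f (2 ^ (2 ^ a)) n1) = f (2 ^ (2 ^ a)) (f m0 n1) := by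
      rw [← h.assoc, h.comm m0, h.assoc]
    rw [em, en, h.distrib, h.distrib', h.distrib', e1, e2, e3]
    exact Nat.xor_lt_two_pow (Nat.xor_lt_two_pow (Nat.xor_lt_two_pow (hF _ (ih _ _ hm1 hn1))
      (hle _ (ih _ _ (half_lt a) (ih _ _ hm1 hn1)))) (hF _ (ih _ _ hm0 hn1)))
      (Nat.xor_lt_two_pow (hF _ (ih _ _ hm1 hn0)) (hle _ (ih _ _ hm0 hn0)))

/-- the nim square of `2^(2^a + j)` for `j < 2^a` -/
theorem sq_pow (h : IsNimMul f) {a j : ℕ} (hj : j < 2 ^ a) :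
    f (2 ^ (2 ^ a + j)) (2 ^ (2 ^ a + j)) =
      2 ^ (2 ^ a) * f (2 ^ j) (2 ^ j) + f (2 ^ (2 ^ a - 1)) (f (2 ^ j) (2 ^ j)) := by
  have hj' : 2 ^ j < 2 ^ (2 ^ a) := Nat.pow_lt_pow_right (by norm_num) hj
  have h1 : 2 ^ (2 ^ a + j) = f (2 ^ (2 ^ a)) (2 ^ j) := by
    rw [h.small a _ hj', pow_add]
  have ht := h.closed a _ _ hj' hj'
  have h2 : f (f (2 ^ (2 ^ a)) (2 ^ j)) (f (2 ^ (2 ^ a)) (2 ^ j)) =
      f (2 ^ (2 ^ a)) (f (2 ^ j) (2 ^ j)) ^^^ f (2 ^ (2 ^ a - 1)) (f (2 ^ j) (2 ^ j)) := by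
    rw [h.comm (2 ^ (2 ^ a)) (2 ^ j), h.assoc, ← h.assoc (2 ^ (2 ^ a)) (2 ^ j) (2 ^ (2 ^ a)),
      h.comm (2 ^ (2 ^ a)) (2 ^ j), h.assoc (2 ^ j), ← h.assoc (2 ^ j) (2 ^ j),
      h.comm (f (2 ^ j) (2 ^ j)), h.square', h.distrib']
  rw [h1, h2, h.small a _ ht, mul_add_eq_xor _ (h.closed a _ _ (half_lt a) ht)]

/-- scaling of the window -/
theorem window (h : IsNimMul f) {b j : ℕ} (hj : j < 2 ^ b) :
    f (2 ^ (2 ^ (b + 1) + j)) (2 ^ (2 ^ (b + 1) + j)) =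
      2 ^ (2 ^ b) * f (2 ^ (2 ^ b + j)) (2 ^ (2 ^ b + j)) := by
  have hj2 : j < 2 ^ (b + 1) := by rw [pow_succ]; omega
  have hj' : 2 ^ j < 2 ^ (2 ^ b) := Nat.pow_lt_pow_right (by norm_num) hj
  have ht := h.closed b _ _ hj' hj'
  rw [h.sq_pow hj2, h.sq_pow hj]
  have h1 : 2 ^ (2 ^ (b + 1) - 1) = f (2 ^ (2 ^ b)) (2 ^ (2 ^ b - 1)) := by
    rw [h.small b _ (half_lt b), ← pow_add]
    congr 1
    have := ppos b
    rw [pow_succ]
    omega
  rw [h1, h.assoc, h.small b _ (h.closed b _ _ (half_lt b) ht), F_succ]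
  ring

theorem sq_F (h : IsNimMul f) (a : ℕ) :
    2 * f (2 ^ (2 ^ a)) (2 ^ (2 ^ a)) = 3 * 2 ^ (2 ^ a) := by
  have h1 := h.square a
  have h2 := F_half a
  omega

/-- the value after the window -/
theorem beyond (h : IsNimMul f) (b : ℕ) :
    f (2 ^ (2 ^ (b + 1) + 2 ^ b)) (2 ^ (2 ^ (b + 1) + 2 ^ b)) ≠
      2 ^ (2 ^ b) * f (2 ^ (2 ^ b + 2 ^ b)) (2 ^ (2 ^ b + 2 ^ b)) := by
  intro heq
  have hb : 2 ^ b < 2 ^ (b + 1) := Nat.pow_lt_pow_right (by norm_num) (Nat.lt_succ_self b)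
  have e2 : 2 ^ b + 2 ^ b = 2 ^ (b + 1) := by rw [pow_succ]; omega
  rw [h.sq_pow hb, e2] at heq
  have h1 := h.sq_F (b + 1)
  have h2 := h.sq_F b
  -- the lower term must vanish
  have h3 : f (2 ^ (2 ^ (b + 1) - 1)) (f (2 ^ (2 ^ b)) (2 ^ (2 ^ b))) = 0 := by
    have h4 : 2 * (2 ^ (2 ^ (b + 1)) * f (2 ^ (2 ^ b)) (2 ^ (2 ^ b)) +
        f (2 ^ (2 ^ (b + 1) - 1)) (f (2 ^ (2 ^ b)) (2 ^ (2 ^ b)))) =
        2 * (2 ^ (2 ^ b) * f (2 ^ (2 ^ (b + 1))) (2 ^ (2 ^ (b + 1)))) := by rw [heq]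
    have h5 : 2 ^ (2 ^ (b + 1)) * (2 * f (2 ^ (2 ^ b)) (2 ^ (2 ^ b))) =
        2 ^ (2 ^ b) * (2 * f (2 ^ (2 ^ (b + 1))) (2 ^ (2 ^ (b + 1)))) := by
      rw [h1, h2]; ring
    nlinarith
  set F := 2 ^ (2 ^ b) with hF
  set c := 2 ^ (2 ^ b - 1) with hc
  have hcF : c < F := half_lt b
  have hh : 2 ^ (2 ^ (b + 1) - 1) = f F c := by
    rw [h.small b _ (half_lt b), ← pow_add]
    congr 1
    have := ppos b
    rw [pow_succ]
    omega
  have hcc : f c c < F := h.closed b _ _ hcF hcF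
  rw [hh, h.square', ← hF, ← hc, h.distrib] at h3
  have e3 : f (f F c) F = f F c ^^^ f c c := by
    rw [h.comm F c, h.assoc, h.square', ← hF, ← hc, h.distrib, h.comm c F]
  have e4 : f (f F c) c = f F (f c c) := h.assoc _ _ _
  rw [e3, e4] at h3
  have e5 : f F (c ^^^ f c c) ^^^ f c c = 0 := by
    rw [h.distrib, ← h3]
    ac_rfl
  rw [h.small b _ (Nat.xor_lt_two_pow hcF hcc), ← hF, ← mul_add_eq_xor _ hcc] at e5
  have e6 : f c c = 0 := (Nat.add_eq_zero_iff.mp e5).2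
  have e7 := (Nat.add_eq_zero_iff.mp e5).1
  rw [e6, Nat.xor_zero] at e7
  have hF0 : 0 < 2 ^ (2 ^ b) := ppos _
  have hc0 : 0 < c := ppos _
  exact absurd e7 (Nat.mul_pos hF0 hc0).ne'

end IsNimMul

/-- a 2-regular sequence satisfies a linear recurrence along powers of two -/
theorem recurrence {s : ℕ → ℤ} (hs : TwoRegularSeq s) :
    ∃ (r : ℕ) (c : Fin r → ℤ), ∀ k, s (2 ^ (k + r)) = ∑ i : Fin r, c i * s (2 ^ (k + (i : ℕ))) := by
  have hN : IsNoetherian ℤ (Submodule.span ℤ (kernelSeq s)) := isNoetherian_of_fg_of_noetherian _ hs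
  let v : ℕ → Submodule.span ℤ (kernelSeq s) := fun e =>
    ⟨fun n => s (2 ^ e * n), Submodule.subset_span ⟨e, 0, ppos e, by simp⟩⟩
  let N : ℕ →o Submodule ℤ (Submodule.span ℤ (kernelSeq s)) :=
    { toFun := fun k => Submodule.span ℤ (v '' Set.Iio k)
      monotone' := fun a b hab => Submodule.span_mono (Set.image_mono (Set.Iio_subset_Iio hab)) }
  obtain ⟨r, hr⟩ := monotone_stabilizes_iff_noetherian.mpr hN N
  have h1 : v r ∈ Submodule.span ℤ (v '' Set.Iio r) := by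
    have h2 : N r = N (r + 1) := hr (r + 1) (Nat.le_succ r)
    change v r ∈ N r
    rw [h2]
    exact Submodule.subset_span ⟨r, Nat.lt_succ_self r, rfl⟩
  have h2 : v '' Set.Iio r = Set.range (fun i : Fin r => v i) := by
    ext x
    constructor
    · rintro ⟨i, hi, rfl⟩
      exact ⟨⟨i, hi⟩, rfl⟩
    · rintro ⟨i, rfl⟩
      exact ⟨i, i.2, rfl⟩
  rw [h2, Submodule.mem_span_range_iff_exists_fun] at h1
  obtain ⟨c, hc⟩ := h1
  refine ⟨r, c, fun k => ?_⟩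
  have h3 : (∑ i : Fin r, c i • v i : Submodule.span ℤ (kernelSeq s)).1 (2 ^ k) =
      (v r).1 (2 ^ k) := by rw [hc]
  have h4 : (v r).1 (2 ^ k) = s (2 ^ (k + r)) := by
    change s (2 ^ r * 2 ^ k) = _
    rw [← pow_add, Nat.add_comm]
  rw [← h4, ← h3, Submodule.coe_sum, Finset.sum_apply]
  refine Finset.sum_congr rfl (fun i _ => ?_)
  change c i * s (2 ^ (i : ℕ) * 2 ^ k) = c i * s (2 ^ (k + (i : ℕ)))
  rw [← pow_add, Nat.add_comm]

theorem not_regular_seq (h : IsNimMul f) : ¬ TwoRegularSeq (fun n => (f n n : ℤ)) := by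
  intro hs
  obtain ⟨r, c, hrec⟩ := recurrence hs
  have hr : r ≤ 2 ^ r := Nat.lt_two_pow_self.le
  have key : ∀ j, (f (2 ^ (2 ^ (r + 1) + j)) (2 ^ (2 ^ (r + 1) + j)) : ℤ) =
      2 ^ (2 ^ r) * f (2 ^ (2 ^ r + j)) (2 ^ (2 ^ r + j)) := by
    intro j
    induction j using Nat.strong_induction_on with
    | _ j ih =>
      by_cases hj : j < 2 ^ r
      · have := h.window hj
        rw [this]
        push_cast
        ring
      · have h1 := hrec (2 ^ (r + 1) + (j - r))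
        have h2 := hrec (2 ^ r + (j - r))
        have e1 : 2 ^ (r + 1) + (j - r) + r = 2 ^ (r + 1) + j := by omega
        have e2 : 2 ^ r + (j - r) + r = 2 ^ r + j := by omega
        rw [e1] at h1
        rw [e2] at h2
        rw [h1, h2, Finset.mul_sum]
        refine Finset.sum_congr rfl (fun i _ => ?_)
        have hi := i.2
        have h3 := ih (j - r + (i : ℕ)) (by omega)
        rw [← Nat.add_assoc, ← Nat.add_assoc] at h3
        rw [h3]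
        ring
  have h1 := key (2 ^ r)
  exact h.beyond r (by exact_mod_cast h1)

theorem regular_diag {t : ℕ → ℕ → ℤ} (ht : TwoRegularArr t) : TwoRegularSeq (fun n => t n n) := by
  let φ : (ℕ → ℕ → ℤ) →ₗ[ℤ] (ℕ → ℤ) :=
    { toFun := fun u n => u n n
      map_add' := fun _ _ => rfl
      map_smul' := fun _ _ => rfl }
  have h1 : (Submodule.map φ (Submodule.span ℤ (kernelArr t))).FG := Submodule.FG.map φ ht
  have hN : IsNoetherian ℤ (Submodule.map φ (Submodule.span ℤ (kernelArr t))) :=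
    isNoetherian_of_fg_of_noetherian _ h1
  have hle : Submodule.span ℤ (kernelSeq (fun n => t n n)) ≤
      Submodule.map φ (Submodule.span ℤ (kernelArr t)) := by
    rw [Submodule.map_span]
    refine Submodule.span_mono ?_
    rintro _ ⟨e, r, hr, rfl⟩
    exact ⟨_, ⟨e, r, r, hr, hr, rfl⟩, rfl⟩
  exact Submodule.FG.of_le h1 hle

end Pool.Agent.Helper114.Nim
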