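import Mathlib

/-!
# Nim multiplication by its rules, and 2-regular sequences and arrays
-/

set_option autoImplicit false

namespace Pool.Agent.Helper114.Nim

/-- `f` is nim multiplication: a commutative and associative operation on the natural numbers that
distributes over the nim sum (bitwise exclusive or) and satisfies, for every `a`,
`2^(2^a) ⊗ n = 2^(2^a) * n` for `n < 2^(2^a)` and `2^(2^a) ⊗ 2^(2^a) = 3 * 2^(2^a) / 2`. -/
structure IsNimMul (f : ℕ → ℕ → ℕ) : Prop where
  comm : ∀ m n, f m n = f n m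
  assoc : ∀ m n k, f (f m n) k = f m (f n k)
  distrib : ∀ m n k, f m (n ^^^ k) = f m n ^^^ f m k
  small : ∀ a n, n < 2 ^ (2 ^ a) → f (2 ^ (2 ^ a)) n = 2 ^ (2 ^ a) * n
  square : ∀ a, f (2 ^ (2 ^ a)) (2 ^ (2 ^ a)) = 3 * 2 ^ (2 ^ a) / 2

/-- the 2-kernel of a sequence of integers -/
def kernelSeq (s : ℕ → ℤ) : Set (ℕ → ℤ) :=
  {t | ∃ e r : ℕ, r < 2 ^ e ∧ t = fun n => s (2 ^ e * n + r)}

/-- a sequence of integers is 2-regular if its 2-kernel generates a finitely generated module -/
def TwoRegularSeq (s : ℕ → ℤ) : Prop := (Submodule.span ℤ (kernelSeq s)).FG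

/-- the 2-kernel of a two-dimensional array of integers -/
def kernelArr (t : ℕ → ℕ → ℤ) : Set (ℕ → ℕ → ℤ) :=
  {u | ∃ e r r' : ℕ, r < 2 ^ e ∧ r' < 2 ^ e ∧ u = fun m n => t (2 ^ e * m + r) (2 ^ e * n + r')}

/-- a two-dimensional array of integers is 2-regular if its 2-kernel generates a finitely generated
module -/
def TwoRegularArr (t : ℕ → ℕ → ℤ) : Prop := (Submodule.span ℤ (kernelArr t)).FG

end Pool.Agent.Helper114.Nim
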