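import Pool.Agent.Helper114_Nim.Defs

/-!
# Nim multiplication exists
-/

set_option autoImplicit false

namespace Pool.Agent.Helper114.Nim

theorem glue {p x u y v : ℕ} (hu : u < 2 ^ p) (hv : v < 2 ^ p) :
    (x ^^^ y) * 2 ^ p + (u ^^^ v) = (x * 2 ^ p + u) ^^^ (y * 2 ^ p + v) := by
  have hp : 0 < 2 ^ p := Nat.pos_of_ne_zero (by positivity)
  have huv : u ^^^ v < 2 ^ p := Nat.xor_lt_two_pow hu hv
  have key : ∀ s t : ℕ, s / 2 ^ p = t / 2 ^ p → s % 2 ^ p = t % 2 ^ p → s = t := by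
    intro s t h1 h2
    rw [← Nat.div_add_mod s (2 ^ p), ← Nat.div_add_mod t (2 ^ p), h1, h2]
  have hd : ∀ s t : ℕ, t < 2 ^ p → (s * 2 ^ p + t) / 2 ^ p = s := by
    intro s t ht
    rw [Nat.add_comm, Nat.add_mul_div_right _ _ hp, Nat.div_eq_of_lt ht, Nat.zero_add]
  have hm : ∀ s t : ℕ, t < 2 ^ p → (s * 2 ^ p + t) % 2 ^ p = t := by
    intro s t ht
    rw [Nat.add_comm, Nat.add_mul_mod_self_right, Nat.mod_eq_of_lt ht]
  apply key
  · rw [Nat.xor_div_two_pow, hd _ _ hu, hd _ _ hv, hd _ _ huv]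
  · rw [Nat.xor_mod_two_pow, hm _ _ hu, hm _ _ hv, hm _ _ huv]

/-- a commutative ring with a distinguished element -/
structure Lvl where
  K : Type
  inst : CommRing K
  h : K

/-- the tower of quadratic algebras `K[x]/(x^2 - x - h)` -/
noncomputable def lvl : ℕ → Lvl
  | 0 => ⟨ZMod 2, inferInstance, 1⟩
  | a + 1 =>
    letI := (lvl a).inst
    ⟨QuadraticAlgebra (lvl a).K (lvl a).h 1, inferInstance, ⟨0, (lvl a).h⟩⟩

/-- the ring at level `a` -/
abbrev K (a : ℕ) : Type := (lvl a).K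

noncomputable instance (a : ℕ) : CommRing (K a) := (lvl a).inst

/-- the distinguished element at level `a` -/
noncomputable def hh (a : ℕ) : K a := (lvl a).h

/-- pairs -/
noncomputable def mk (a : ℕ) (x y : K a) : K (a + 1) := (⟨x, y⟩ : QuadraticAlgebra (K a) (hh a) 1)

/-- first component -/
noncomputable def lo (a : ℕ) (x : K (a + 1)) : K a := QuadraticAlgebra.re (R := K a) (a := hh a) (b := 1) x

/-- second component -/
noncomputable def hi (a : ℕ) (x : K (a + 1)) : K a := QuadraticAlgebra.im (R := K a) (a := hh a) (b := 1) x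

theorem lo_mk (a : ℕ) (x y : K a) : lo a (mk a x y) = x := rfl
theorem hi_mk (a : ℕ) (x y : K a) : hi a (mk a x y) = y := rfl
theorem mk_eta (a : ℕ) (x : K (a + 1)) : mk a (lo a x) (hi a x) = x := rfl
theorem hh_succ (a : ℕ) : hh (a + 1) = mk a 0 (hh a) := rfl
theorem lo_add (a : ℕ) (x y : K (a + 1)) : lo a (x + y) = lo a x + lo a y := rfl
theorem hi_add (a : ℕ) (x y : K (a + 1)) : hi a (x + y) = hi a x + hi a y := rfl
theorem lo_mul (a : ℕ) (x y : K (a + 1)) :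
    lo a (x * y) = lo a x * lo a y + hh a * hi a x * hi a y := rfl
theorem hi_mul (a : ℕ) (x y : K (a + 1)) :
    hi a (x * y) = lo a x * hi a y + hi a x * lo a y + 1 * hi a x * hi a y := rfl

theorem ext' {a : ℕ} {x y : K (a + 1)} (h1 : lo a x = lo a y) (h2 : hi a x = hi a y) : x = y := by
  rw [← mk_eta a x, ← mk_eta a y, h1, h2]

/-- encoding of ring elements by natural numbers -/
noncomputable def enc : (a : ℕ) → K a → ℕ
  | 0, x => ZMod.val (n := 2) x
  | a + 1, x => enc a (hi a x) * 2 ^ (2 ^ a) + enc a (lo a x)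

/-- decoding -/
noncomputable def dec : (a : ℕ) → ℕ → K a
  | 0, n => ((n : ℕ) : ZMod 2)
  | a + 1, n => mk a (dec a (n % 2 ^ (2 ^ a))) (dec a (n / 2 ^ (2 ^ a)))

theorem two_pow_succ (a : ℕ) : 2 ^ (2 ^ (a + 1)) = 2 ^ (2 ^ a) * 2 ^ (2 ^ a) := by
  rw [← pow_add, pow_succ, mul_two]

theorem enc_lt (a : ℕ) (x : K a) : enc a x < 2 ^ (2 ^ a) := by
  induction a with
  | zero => exact ZMod.val_lt (n := 2) x
  | succ a ih =>
    have h1 := ih (hi a x)
    have h2 := ih (lo a x)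
    rw [enc, two_pow_succ]
    nlinarith

theorem dec_enc (a : ℕ) (x : K a) : dec a (enc a x) = x := by
  induction a with
  | zero => exact ZMod.natCast_zmod_val (n := 2) x
  | succ a ih =>
    have h2 := enc_lt a (lo a x)
    have hp : 0 < 2 ^ (2 ^ a) := by positivity
    rw [enc, dec]
    have hd : (enc a (hi a x) * 2 ^ (2 ^ a) + enc a (lo a x)) / 2 ^ (2 ^ a) = enc a (hi a x) := by
      rw [Nat.add_comm, Nat.add_mul_div_right _ _ hp, Nat.div_eq_of_lt h2, Nat.zero_add]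
    have hm : (enc a (hi a x) * 2 ^ (2 ^ a) + enc a (lo a x)) % 2 ^ (2 ^ a) = enc a (lo a x) := by
      rw [Nat.add_comm, Nat.add_mul_mod_self_right, Nat.mod_eq_of_lt h2]
    rw [hd, hm, ih, ih, mk_eta]

theorem enc_dec (a : ℕ) (n : ℕ) (hn : n < 2 ^ (2 ^ a)) : enc a (dec a n) = n := by
  induction a generalizing n with
  | zero =>
    have : n < 2 := by simpa using hn
    exact ZMod.val_cast_of_lt this
  | succ a ih =>
    have hp : 0 < 2 ^ (2 ^ a) := by positivity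
    rw [two_pow_succ] at hn
    rw [dec, enc, hi_mk, lo_mk, ih _ (Nat.mod_lt _ hp), ih _ (Nat.div_lt_of_lt_mul hn)]
    have := Nat.div_add_mod n (2 ^ (2 ^ a))
    rw [Nat.mul_comm]
    exact this

theorem enc_add (a : ℕ) (x y : K a) : enc a (x + y) = enc a x ^^^ enc a y := by
  induction a with
  | zero =>
    have : ∀ x y : ZMod 2, (x + y).val = x.val ^^^ y.val := by decide
    exact this x y
  | succ a ih =>
    rw [enc, enc, enc, lo_add, hi_add, ih, ih]
    exact glue (enc_lt _ _) (enc_lt _ _)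

theorem enc_zero (a : ℕ) : enc a 0 = 0 := by
  have h := enc_add a 0 0
  rw [add_zero, Nat.xor_self] at h
  exact h

theorem dec_zero (a : ℕ) : dec a 0 = 0 := by
  rw [← enc_zero a, dec_enc]

theorem enc_one (a : ℕ) : enc a 1 = 1 := by
  induction a with
  | zero => rfl
  | succ a ih =>
    have h1 : hi a (1 : K (a + 1)) = 0 := rfl
    have h2 : lo a (1 : K (a + 1)) = 1 := rfl
    rw [enc, h1, h2, ih, enc_zero, Nat.zero_mul]

theorem dec_one (a : ℕ) : dec a 1 = 1 := by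
  rw [← enc_one a, dec_enc]

theorem dec_xor (a : ℕ) {m n : ℕ} (hm : m < 2 ^ (2 ^ a)) (hn : n < 2 ^ (2 ^ a)) :
    dec a (m ^^^ n) = dec a m + dec a n := by
  have h : enc a (dec a m + dec a n) = m ^^^ n := by
    rw [enc_add, enc_dec a m hm, enc_dec a n hn]
  rw [← h, dec_enc]

theorem enc_hh (a : ℕ) : 2 * enc a (hh a) = 2 ^ (2 ^ a) := by
  induction a with
  | zero => rfl
  | succ a ih =>
    rw [hh_succ, enc, hi_mk, lo_mk, enc_zero, two_pow_succ, ← ih]
    ring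

theorem dec_succ (a : ℕ) {n : ℕ} (hn : n < 2 ^ (2 ^ a)) : dec (a + 1) n = mk a (dec a n) 0 := by
  rw [dec, Nat.mod_eq_of_lt hn, Nat.div_eq_of_lt hn, dec_zero]

/-- multiplication at level `a` -/
noncomputable def nm (a m n : ℕ) : ℕ := enc a (dec a m * dec a n)

theorem nm_succ (a : ℕ) {m n : ℕ} (hm : m < 2 ^ (2 ^ a)) (hn : n < 2 ^ (2 ^ a)) :
    nm (a + 1) m n = nm a m n := by
  have h : dec (a + 1) m * dec (a + 1) n = mk a (dec a m * dec a n) 0 := by
    rw [dec_succ a hm, dec_succ a hn]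
    apply ext'
    · rw [lo_mul, lo_mk, lo_mk, hi_mk, hi_mk, lo_mk]; ring
    · rw [hi_mul, lo_mk, lo_mk, hi_mk, hi_mk, hi_mk]; ring
  rw [nm, nm, h, enc, hi_mk, lo_mk, enc_zero, Nat.zero_mul, Nat.zero_add]

theorem nm_add (a b : ℕ) {m n : ℕ} (hm : m < 2 ^ (2 ^ a)) (hn : n < 2 ^ (2 ^ a)) :
    nm (a + b) m n = nm a m n := by
  induction b with
  | zero => rfl
  | succ b ih =>
    have hle : 2 ^ (2 ^ a) ≤ 2 ^ (2 ^ (a + b)) :=
      Nat.pow_le_pow_right (by norm_num) (Nat.pow_le_pow_right (by norm_num) (Nat.le_add_right a b))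
    rw [← Nat.add_assoc, nm_succ (a + b) (hm.trans_le hle) (hn.trans_le hle), ih]

theorem lt_lvl (n : ℕ) : n < 2 ^ (2 ^ n) :=
  Nat.lt_two_pow_self.trans Nat.lt_two_pow_self |>.trans_le (le_refl _)

theorem lt_lvl_of_le {n a : ℕ} (h : n ≤ a) : n < 2 ^ (2 ^ a) := lt_of_le_of_lt h (by
  exact (Nat.lt_two_pow_self (n := a)).trans (Nat.lt_two_pow_self (n := 2 ^ a)))

/-- nim multiplication -/
noncomputable def nimMul (m n : ℕ) : ℕ := nm (m + n) m n

theorem nimMul_eq {a m n : ℕ} (hm : m < 2 ^ (2 ^ a)) (hn : n < 2 ^ (2 ^ a)) :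
    nimMul m n = nm a m n := by
  have h1 : nm (m + n + a) m n = nimMul m n :=
    nm_add (m + n) a (lt_lvl_of_le (by omega)) (lt_lvl_of_le (by omega))
  have h2 : nm (a + (m + n)) m n = nm a m n := nm_add a (m + n) hm hn
  rw [← h1, ← h2, Nat.add_comm (m + n) a]

theorem nimMul_lt {a m n : ℕ} (hm : m < 2 ^ (2 ^ a)) (hn : n < 2 ^ (2 ^ a)) :
    nimMul m n < 2 ^ (2 ^ a) := by
  rw [nimMul_eq hm hn]; exact enc_lt _ _

theorem isNimMul_nimMul : IsNimMul nimMul where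
  comm m n := by
    rw [nimMul, nimMul, nm, nm, Nat.add_comm n m, mul_comm]
  assoc m n k := by
    have hm : m < 2 ^ (2 ^ (m + n + k)) := lt_lvl_of_le (by omega)
    have hn : n < 2 ^ (2 ^ (m + n + k)) := lt_lvl_of_le (by omega)
    have hk : k < 2 ^ (2 ^ (m + n + k)) := lt_lvl_of_le (by omega)
    rw [nimMul_eq (nimMul_lt hm hn) hk, nimMul_eq hm (nimMul_lt hn hk), nimMul_eq hm hn,
      nimMul_eq hn hk, nm, nm, nm, nm, dec_enc, dec_enc, mul_assoc]
  distrib m n k := by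
    have hm : m < 2 ^ (2 ^ (m + n + k)) := lt_lvl_of_le (by omega)
    have hn : n < 2 ^ (2 ^ (m + n + k)) := lt_lvl_of_le (by omega)
    have hk : k < 2 ^ (2 ^ (m + n + k)) := lt_lvl_of_le (by omega)
    rw [nimMul_eq hm (Nat.xor_lt_two_pow hn hk), nimMul_eq hm hn, nimMul_eq hm hk, nm, nm, nm,
      dec_xor _ hn hk, mul_add, enc_add]
  small a n hn := by
    have hp : 0 < 2 ^ (2 ^ a) := by positivity
    have hle : 2 ^ (2 ^ a) ≤ 2 ^ (2 ^ (a + 1)) := by rw [two_pow_succ]; nlinarith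
    have hlt : 2 ^ (2 ^ a) < 2 ^ (2 ^ (a + 1)) :=
      Nat.pow_lt_pow_right (by norm_num) (Nat.pow_lt_pow_right (by norm_num) (Nat.lt_succ_self a))
    rw [nimMul_eq hlt (hn.trans_le hle), nm, dec_succ a hn]
    have h : dec (a + 1) (2 ^ (2 ^ a)) = mk a 0 1 := by
      rw [dec, Nat.mod_self, Nat.div_self hp, dec_zero, dec_one]
    have h' : mk a 0 1 * mk a (dec a n) 0 = mk a 0 (dec a n) := by
      apply ext'
      · rw [lo_mul, lo_mk, lo_mk, hi_mk, hi_mk, lo_mk]; ring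
      · rw [hi_mul, lo_mk, lo_mk, hi_mk, hi_mk, hi_mk]; ring
    rw [h, h', enc, hi_mk, lo_mk, enc_zero, enc_dec a n hn, Nat.add_zero, Nat.mul_comm]
  square a := by
    have hp : 0 < 2 ^ (2 ^ a) := by positivity
    have hlt : 2 ^ (2 ^ a) < 2 ^ (2 ^ (a + 1)) :=
      Nat.pow_lt_pow_right (by norm_num) (Nat.pow_lt_pow_right (by norm_num) (Nat.lt_succ_self a))
    rw [nimMul_eq hlt hlt, nm]
    have h : dec (a + 1) (2 ^ (2 ^ a)) = mk a 0 1 := by
      rw [dec, Nat.mod_self, Nat.div_self hp, dec_zero, dec_one]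
    have h' : mk a 0 1 * mk a 0 1 = mk a (hh a) 1 := by
      apply ext'
      · rw [lo_mul, lo_mk, hi_mk, lo_mk]; ring
      · rw [hi_mul, lo_mk, hi_mk, hi_mk]; ring
    rw [h, h', enc, hi_mk, lo_mk, enc_one]
    have := enc_hh a
    omega

end Pool.Agent.Helper114.Nim
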